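import Pool.Agent.Helper79.DM.Defs

/-!
# Eventually periodic sets and orbits
-/

set_option autoImplicit false

namespace Pool.Agent.Helper79.DM

open Polynomial

theorem EP.of_finite {S : Set ℕ} (h : S.Finite) : EP S := by
  obtain ⟨N, hN⟩ := h.bddAbove
  refine ⟨N + 1, 1, one_pos, fun n hn => ?_⟩
  constructor
  · intro h1
    have := hN h1
    omega
  · intro h1
    have := hN h1
    omega

theorem EP.mul {S : Set ℕ} {N P : ℕ} (h : ∀ n, N ≤ n → (n ∈ S ↔ n + P ∈ S)) (k : ℕ) :
    ∀ n, N ≤ n → (n ∈ S ↔ n + P * k ∈ S) := by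
  induction k with
  | zero => intro n _; simp
  | succ k ih =>
    intro n hn
    rw [ih n hn, h (n + P * k) (by omega)]
    have : n + P * k + P = n + P * (k + 1) := by ring
    rw [this]

theorem EP.union {S T : Set ℕ} (hS : EP S) (hT : EP T) : EP (S ∪ T) := by
  obtain ⟨N, P, hP, h⟩ := hS
  obtain ⟨M, Q, hQ, h'⟩ := hT
  refine ⟨max N M, P * Q, Nat.mul_pos hP hQ, fun n hn => ?_⟩
  have h1 := EP.mul h Q n (le_trans (le_max_left _ _) hn)
  have h2 := EP.mul h' P n (le_trans (le_max_right _ _) hn)
  rw [mul_comm Q P] at h2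
  show (n ∈ S ∨ n ∈ T) ↔ (n + P * Q ∈ S ∨ n + P * Q ∈ T)
  rw [h1, h2]

theorem EP.of_tail {S : Set ℕ} (m : ℕ) (h : EP {n | n + m ∈ S}) : EP S := by
  obtain ⟨N, P, hP, h⟩ := h
  refine ⟨N + m, P, hP, fun n hn => ?_⟩
  obtain ⟨k, rfl⟩ : ∃ k, n = k + m := ⟨n - m, by omega⟩
  have h1 := h k (by omega)
  have h2 : k + m + P = k + P + m := by ring
  rw [h2]
  exact h1

theorem EP.congr {S T : Set ℕ} (N : ℕ) (h : ∀ n, N ≤ n → (n ∈ S ↔ n ∈ T)) (hS : EP S) :
    EP T := by
  obtain ⟨M, P, hP, h'⟩ := hS
  refine ⟨max N M, P, hP, fun n hn => ?_⟩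
  have h1 : N ≤ n := le_trans (le_max_left _ _) hn
  rw [← h n h1, ← h (n + P) (by omega), h' n (le_trans (le_max_right _ _) hn)]

theorem EP.rep {S : Set ℕ} (h : EP S) :
    ∃ U : Finset (ℕ × ℕ), S = {n : ℕ | ∃ q ∈ U, ∃ k : ℕ, n = q.1 * k + q.2} := by
  classical
  obtain ⟨N, P, hP, h⟩ := h
  refine ⟨((Finset.range N).filter (· ∈ S)).image (fun b => (0, b)) ∪
    ((Finset.Ico N (N + P)).filter (· ∈ S)).image (fun b => (P, b)), ?_⟩
  ext n
  simp only [Set.mem_setOf_eq, Finset.mem_union, Finset.mem_image, Finset.mem_filter,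
    Finset.mem_range, Finset.mem_Ico]
  constructor
  · intro hn
    by_cases h1 : n < N
    · exact ⟨(0, n), Or.inl ⟨n, ⟨h1, hn⟩, rfl⟩, 0, by simp⟩
    · have h2 : N ≤ n := by omega
      obtain ⟨j, hj⟩ : ∃ j, n = N + j := ⟨n - N, by omega⟩
      have h3 : j % P < P := Nat.mod_lt _ hP
      have h4 : n = N + j % P + P * (j / P) := by
        rw [hj, add_assoc, Nat.mod_add_div]
      refine ⟨(P, N + j % P), Or.inr ⟨N + j % P, ⟨⟨by omega, by omega⟩, ?_⟩, rfl⟩, j / P, ?_⟩
      · have := EP.mul h (j / P) (N + j % P) (by omega)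
        rw [this, ← h4]
        exact hn
      · show n = P * (j / P) + (N + j % P)
        omega
  · rintro ⟨q, ⟨b, ⟨hb, hbS⟩, rfl⟩ | ⟨b, ⟨hb, hbS⟩, rfl⟩, k, hk⟩
    · simp only [zero_mul, zero_add] at hk
      rw [hk]; exact hbS
    · have := (EP.mul h k b hb.1).mp hbS
      have h2 : n = b + P * k := by
        simp only at hk
        omega
      rw [h2]; exact this

section

variable {K : Type*} [Field K]

theorem orb_zero (f : K[X]) (x : K) : orb f x 0 = x := rfl

theorem orb_succ (f : K[X]) (x : K) (n : ℕ) : orb f x (n + 1) = f.eval (orb f x n) :=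
  Function.iterate_succ_apply' _ _ _

theorem orb_add (f : K[X]) (x : K) (m n : ℕ) : orb f x (n + m) = orb f (orb f x m) n :=
  Function.iterate_add_apply _ _ _ _

theorem orb_map {L : Type*} [Field L] (σ : K →+* L) (f : K[X]) (x : K) (n : ℕ) :
    orb (f.map σ) (σ x) n = σ (orb f x n) := by
  induction n with
  | zero => rfl
  | succ n ih => rw [orb_succ, orb_succ, ih, eval_map, eval₂_at_apply]

/-- conjugation by a homothety; `comp` with `C c * X` -/
theorem orb_conj (c : K) (hc : c ≠ 0) (f : K[X]) (x : K) (n : ℕ) :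
    orb (C c * f.comp (C c⁻¹ * X)) (c * x) n = c * orb f x n := by
  induction n with
  | zero => rfl
  | succ n ih =>
    rw [orb_succ, orb_succ, ih]
    simp only [eval_mul, eval_C, eval_comp, eval_X]
    rw [inv_mul_cancel_left₀ hc]

theorem orb_period (f : K[X]) (x : K) {a b : ℕ} (hab : a < b) (h : orb f x a = orb f x b) :
    ∀ n, a ≤ n → orb f x (n + (b - a)) = orb f x n := by
  intro n hn
  obtain ⟨k, rfl⟩ : ∃ k, n = k + a := ⟨n - a, by omega⟩
  have h1 : k + a + (b - a) = k + b := by omega
  rw [h1, orb_add, orb_add, h]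

/-- an infinite orbit has no repetition -/
theorem orb_injective (f : K[X]) (x : K) (h : ¬ (Set.range (orb f x)).Finite) :
    Function.Injective (orb f x) := by
  by_contra hinj
  apply h
  obtain ⟨a, b, hab, hlt⟩ : ∃ a b, orb f x a = orb f x b ∧ a < b := by
    simp only [Function.Injective, not_forall] at hinj
    obtain ⟨a, b, h1, h2⟩ := hinj
    rcases lt_or_gt_of_ne h2 with h3 | h3
    · exact ⟨a, b, h1, h3⟩
    · exact ⟨b, a, h1.symm, h3⟩
  have hper := orb_period f x hlt hab
  apply ((Finset.range b).finite_toSet.image (orb f x)).subset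
  rintro _ ⟨n, rfl⟩
  induction n using Nat.strong_induction_on with
  | _ n ih =>
    by_cases h1 : n < b
    · exact ⟨n, by simpa using h1, rfl⟩
    · have h2 : orb f x n = orb f x (n - (b - a)) := by
        have := hper (n - (b - a)) (by omega)
        have h3 : n - (b - a) + (b - a) = n := by omega
        rw [h3] at this
        exact this
      rw [h2]
      exact ih _ (by omega)

theorem orb_finite (f : K[X]) (x : K) (h : (Set.range (orb f x)).Finite) :
    ∃ N P : ℕ, 0 < P ∧ ∀ n, N ≤ n → orb f x (n + P) = orb f x n := by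
  have hinj : ¬ Function.Injective (orb f x) := by
    intro hinj
    exact (Set.infinite_range_of_injective hinj) h
  simp only [Function.Injective, not_forall] at hinj
  obtain ⟨a, b, h1, h2⟩ := hinj
  rcases lt_or_gt_of_ne h2 with h3 | h3
  · exact ⟨a, b - a, by omega, orb_period f x h3 h1⟩
  · exact ⟨b, a - b, by omega, orb_period f x h3 h1.symm⟩

theorem orb_congr (f : K[X]) (x : K) {N P : ℕ} (h : ∀ n, N ≤ n → orb f x (n + P) = orb f x n)
    (k : ℕ) : ∀ n, N ≤ n → orb f x (n + P * k) = orb f x n := by
  induction k with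
  | zero => intro n _; simp
  | succ k ih =>
    intro n hn
    have h1 : n + P * (k + 1) = (n + P * k) + P := by ring
    rw [h1, h _ (by omega), ih n hn]

theorem ret_swap (f g : K[X]) (x y : K) (h : MvPolynomial (Fin 2) K) :
    ret f g x y h = ret g f y x (MvPolynomial.rename (Equiv.swap (0 : Fin 2) 1) h) := by
  ext n
  show MvPolynomial.eval ![orb f x n, orb g y n] h = 0 ↔
    MvPolynomial.eval ![orb g y n, orb f x n] (MvPolynomial.rename (Equiv.swap (0 : Fin 2) 1) h) = 0
  rw [MvPolynomial.eval_rename]
  have h1 : (![orb g y n, orb f x n] : Fin 2 → K) ∘ (Equiv.swap (0 : Fin 2) 1) =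
      ![orb f x n, orb g y n] := by
    funext i
    fin_cases i
    · simp
    · simp
  rw [h1]

/-- if one of the two orbits is finite then the return set is eventually periodic -/
theorem ret_ep_of_finite (f g : K[X]) (x y : K) (h : MvPolynomial (Fin 2) K)
    (hx : (Set.range (orb f x)).Finite) : EP (ret f g x y h) := by
  classical
  obtain ⟨N, P, hP, hper⟩ := orb_finite f x hx
  by_cases hy : (Set.range (orb g y)).Finite
  · obtain ⟨M, Q, hQ, hper'⟩ := orb_finite g y hy
    refine ⟨max N M, P * Q, Nat.mul_pos hP hQ, fun n hn => ?_⟩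
    show MvPolynomial.eval ![orb f x n, orb g y n] h = 0 ↔
      MvPolynomial.eval ![orb f x (n + P * Q), orb g y (n + P * Q)] h = 0
    rw [orb_congr f x hper Q n (le_trans (le_max_left _ _) hn), mul_comm P Q,
      orb_congr g y hper' P n (le_trans (le_max_right _ _) hn)]
  · have hinj := orb_injective g y hy
    -- the classes
    have key : ∀ r < P, EP {n | n ∈ ret f g x y h ∧ n % P = r} := by
      intro r hr
      set a := orb f x (P * N + r) with ha
      have hfx : ∀ n, N ≤ n → n % P = r → orb f x n = a := by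
        intro n hn hnr
        have h1 : n + P * N = (P * N + r) + P * (n / P) := by
          have := Nat.mod_add_div n P
          rw [hnr] at this
          omega
        have h2 := orb_congr f x hper N n hn
        have h3 := orb_congr f x hper (n / P) (P * N + r) (by
          have : N ≤ P * N := Nat.le_mul_of_pos_left N hP
          omega)
        rw [← h2, h1, h3]
      set q : K[X] := MvPolynomial.eval₂ C ![C a, X] h with hq
      have hqe : ∀ b : K, q.eval b = MvPolynomial.eval ![a, b] h := by
        intro b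
        have h1 := MvPolynomial.hom_eval₂ h (C : K →+* K[X]) (evalRingHom b) ![C a, X]
        have h2 : q.eval b = evalRingHom b (MvPolynomial.eval₂ C ![C a, X] h) := rfl
        rw [h2]
        erw [h1]
        have h3 : (evalRingHom b).comp (C : K →+* K[X]) = RingHom.id K := by
          ext z
          simp
        have h4 : (fun i => (evalRingHom b) ((![C a, X] : Fin 2 → K[X]) i)) = ![a, b] := by
          funext i
          fin_cases i
          · simp
          · simp
        rw [h3, h4]
        rfl
      by_cases hq0 : q = 0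
      · refine EP.congr (S := {n | n % P = r}) N (fun n hn => ?_)
          ⟨0, P, hP, fun n _ => ?_⟩
        · constructor
          · intro hnr
            refine ⟨?_, hnr⟩
            show MvPolynomial.eval ![orb f x n, orb g y n] h = 0
            rw [hfx n hn hnr, ← hqe, hq0, eval_zero]
          · rintro ⟨-, hnr⟩
            exact hnr
        · show n % P = r ↔ (n + P) % P = r
          rw [Nat.add_mod_right]
      · refine EP.of_finite ?_
        have h1 : {n | n ∈ ret f g x y h ∧ n % P = r} ⊆
            (Finset.range N : Set ℕ) ∪ (orb g y) ⁻¹' (q.roots.toFinset : Set K) := by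
          rintro n ⟨hn, hnr⟩
          by_cases hnN : n < N
          · left; simpa using hnN
          · right
            show orb g y n ∈ (q.roots.toFinset : Set K)
            have h2 : MvPolynomial.eval ![orb f x n, orb g y n] h = 0 := hn
            rw [hfx n (by omega) hnr, ← hqe] at h2
            simp only [Finset.mem_coe, Multiset.mem_toFinset]
            exact (mem_roots hq0).mpr h2
        exact ((Finset.finite_toSet _).union
          ((Finset.finite_toSet _).preimage hinj.injOn)).subset h1
    have key2 : ∀ m ≤ P, EP {n | n ∈ ret f g x y h ∧ n % P < m} := by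
      intro m
      induction m with
      | zero =>
        intro _
        refine EP.of_finite ?_
        simp
      | succ m ih =>
        intro hm
        have h1 := EP.union (ih (by omega)) (key m (by omega))
        refine EP.congr 0 (fun n _ => ?_) h1
        show (n ∈ ret f g x y h ∧ n % P < m) ∨ (n ∈ ret f g x y h ∧ n % P = m) ↔
          (n ∈ ret f g x y h ∧ n % P < m + 1)
        constructor
        · rintro (⟨h2, h3⟩ | ⟨h2, h3⟩)
          · exact ⟨h2, by omega⟩
          · exact ⟨h2, by omega⟩
        · rintro ⟨h2, h3⟩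
          by_cases h4 : n % P < m
          · exact Or.inl ⟨h2, h4⟩
          · exact Or.inr ⟨h2, by omega⟩
    refine EP.congr 0 (fun n _ => ?_) (key2 P le_rfl)
    exact ⟨fun h1 => h1.1, fun h1 => ⟨h1, Nat.mod_lt _ hP⟩⟩

theorem ret_tail (f g : K[X]) (x y : K) (h : MvPolynomial (Fin 2) K) (m : ℕ) :
    {n | n + m ∈ ret f g x y h} = ret f g (orb f x m) (orb g y m) h := by
  ext n
  show MvPolynomial.eval ![orb f x (n + m), orb g y (n + m)] h = 0 ↔ _
  rw [orb_add, orb_add]
  rfl

/-- the return set of a product is the union over the irreducible factors -/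
theorem ret_of_factors (f g : K[X]) (x y : K) (h : MvPolynomial (Fin 2) K) (h0 : h ≠ 0)
    (H : ∀ k : MvPolynomial (Fin 2) K, Irreducible k → k ∣ h → EP (ret f g x y k)) :
    EP (ret f g x y h) := by
  revert h0 H
  refine WfDvdMonoid.induction_on_irreducible h ?_ ?_ ?_
  · intro h0
    exact absurd rfl h0
  · intro u hu _ _
    refine EP.of_finite ?_
    have h1 : ret f g x y u = ∅ := by
      ext n
      simp only [Set.mem_empty_iff_false, iff_false]
      intro hn
      have h2 : MvPolynomial.eval ![orb f x n, orb g y n] u = 0 := hn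
      exact (hu.map (MvPolynomial.eval ![orb f x n, orb g y n])).ne_zero h2
    rw [h1]
    exact Set.finite_empty
  · intro a i ha hi ih hne H
    have h1 := ih ha (fun k hk hka => H k hk (hka.mul_left i))
    have h2 := H i hi (dvd_mul_right i a)
    refine EP.congr 0 (fun n _ => ?_) (EP.union h2 h1)
    show (MvPolynomial.eval ![orb f x n, orb g y n] i = 0 ∨
      MvPolynomial.eval ![orb f x n, orb g y n] a = 0) ↔
      MvPolynomial.eval ![orb f x n, orb g y n] (i * a) = 0
    rw [map_mul, mul_eq_zero]

end

end Pool.Agent.Helper79.DM
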